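import Pool.Agent.Lib.MP_28303a_al.NT.ER.Defs
import Pool.Agent.Lib.MP_28303a_al.NT.H15.Ind

/-! # Row IND: the induction for the pairs with `j ∈ J`, and the lifts to the one tree `j` -/

set_option autoImplicit false
set_option linter.unusedSectionVars false
set_option linter.unusedVariables false

namespace Pool.Agent.NegK.NT.ER53

universe u

open CategoryTheory Limits
open Pool.Agent.NegK.NT.H15

section

variable {Γ : Type u} [Group Γ] {T : Sys Γ}

/-- The descending induction, for the pairs with `j ∈ J`. -/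
theorem ext_all {j : Fin T.m} (hB : T.STEPB)
    (hA : ∀ J : Finset (Fin T.m), j ∈ J → T.EXT Finset.univ J) :
    ∀ (n : ℕ) (S J : Finset (Fin T.m)), Sᶜ.card = n → J ⊆ S → j ∈ J → T.EXT S J := by
  intro n
  induction n with
  | zero =>
    intro S J hS hJ hj
    have h1 : S = Finset.univ := by
      rw [Finset.card_eq_zero] at hS
      rw [← compl_compl S, hS, Finset.compl_empty]
    subst h1
    exact hA J hj
  | succ n ih =>
    intro S J hS hJ hj
    obtain ⟨i, hi⟩ : Sᶜ.Nonempty := by
      rw [← Finset.card_pos, hS]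
      exact Nat.succ_pos n
    have hi' : i ∉ S := Finset.mem_compl.1 hi
    have h2 : (insert i S)ᶜ.card = n := by
      rw [Finset.compl_insert, Finset.card_erase_of_mem hi, hS]
      rfl
    have h3 := ih (insert i S) (insert i J) h2 (Finset.insert_subset_insert i hJ)
      (Finset.mem_insert_of_mem hj)
    have h4 := ih (insert i S) J h2 (hJ.trans (Finset.subset_insert i S)) hj
    exact ext_of_lift (hB S J i hJ hi' h3) h4

end

/-- Row IND. -/
theorem ind : ER.IndStatement.{u} := by
  intro Γ _ T j hB hA k _ hk X hX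
  obtain ⟨D, hD, ⟨e⟩⟩ := hB ∅ ∅ j (Finset.empty_subset _) (Finset.notMem_empty j)
    (ext_all hB hA _ (insert j ∅) (insert j ∅) rfl (Finset.Subset.refl _)
      (Finset.mem_insert_self j ∅)) k hk X ⟨hX, fun i hi => absurd hi (Finset.notMem_empty i)⟩
  have key : ∀ S : Finset (Fin T.m), S = insert j ∅ → ∃ D : KK k (T.P S), Per D ∧
      Nonempty ((T.L k (Finset.empty_subset S)).obj D ≅ X) := by
    rintro _ rfl
    exact ⟨D, hD.per, ⟨e⟩⟩
  exact key {j} (by rw [insert_empty_eq])

end Pool.Agent.NegK.NT.ER53
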